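import Pool.Agent.W2helper26.PB.Stm

/-!
# Project PB (helper26): counting the planted strings (piece CNT0)
-/

set_option autoImplicit false

namespace Pool.Agent.W2helper69.PB

open Pool.Agent.NPC Pool.Agent.H620R2.Gauge Filter MeasureTheory
open Pool.Agent.W2helper26.PB

open Classical in
/-- the strings of length `k` -/
noncomputable def Lk (k : ℕ) : Finset (List Bool) :=
  Finset.univ.image (fun v : Fin k → Bool => List.ofFn v)

theorem card_Lk (k : ℕ) : (Lk k).card ≤ 2 ^ k := by
  classical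
  unfold Lk
  refine Finset.card_image_le.trans ?_
  simp

theorem mem_Lk (c : List Bool) : c ∈ Lk c.length := by
  classical
  unfold Lk
  rw [Finset.mem_image]
  exact ⟨fun j => c.get j, Finset.mem_univ _, List.ofFn_get c⟩

/-- the number of the levels -/
theorem card_m (n E : ℕ) (hE : 0 < E) :
    (((Finset.range n).filter (fun m => (m + 1) * E ≤ n)).card : ℝ) ≤ n / E := by
  have h1 : ((Finset.range n).filter (fun m => (m + 1) * E ≤ n)) ⊆ Finset.range (n / E) := by
    intro m hm
    rw [Finset.mem_filter] at hm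
    rw [Finset.mem_range]
    have h2 : m + 1 ≤ n / E := (Nat.le_div_iff_mul_le hE).2 hm.2
    omega
  have h3 := Finset.card_le_card h1
  rw [Finset.card_range] at h3
  calc (((Finset.range n).filter (fun m => (m + 1) * E ≤ n)).card : ℝ) ≤ ((n / E : ℕ) : ℝ) := by
        exact_mod_cast h3
    _ ≤ n / E := Nat.cast_div_le

theorem geom_le (n : ℕ) : ∑ d ∈ Finset.range n, (1 / 2 : ℝ) ^ d ≤ 2 := by
  have h1 : ∑ d ∈ Finset.range n, (1 / 2 : ℝ) ^ d = 2 - 2 * (1 / 2) ^ n := by
    induction n with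
    | zero => simp
    | succ n ih => rw [Finset.sum_range_succ, ih, pow_succ]; ring
  rw [h1]
  have : (0 : ℝ) ≤ (1 / 2) ^ n := by positivity
  linarith

open Classical in
/-- the planted strings of length at most `t` -/
noncomputable def PS (c₀ n : ℕ) : Finset (List Bool) :=
  (Finset.range n).biUnion fun k => (Finset.range n).biUnion fun d => (Lk k).biUnion fun c =>
    ((Finset.range n).filter (fun m => (m + 1) * 2 ^ (c₀ + 2 * k + d) ≤ n)).image
      (fun m => gam c₀ (c, d) m)

theorem card_PS (c₀ n : ℕ) : ((PS c₀ n).card : ℝ) ≤ 4 / 2 ^ c₀ * n := by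
  classical
  have h1 : ∀ k d : ℕ, (((Lk k).biUnion fun c =>
    ((Finset.range n).filter (fun m => (m + 1) * 2 ^ (c₀ + 2 * k + d) ≤ n)).image
      (fun m => gam c₀ (c, d) m)).card : ℝ) ≤ ((n : ℝ) / 2 ^ c₀) * ((1 / 2) ^ k * (1 / 2) ^ d) := by
    intro k d
    have h2 : (((Lk k).biUnion fun c =>
      ((Finset.range n).filter (fun m => (m + 1) * 2 ^ (c₀ + 2 * k + d) ≤ n)).image
        (fun m => gam c₀ (c, d) m)).card) ≤
        (Lk k).card * ((Finset.range n).filter
          (fun m => (m + 1) * 2 ^ (c₀ + 2 * k + d) ≤ n)).card :=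
      Finset.card_biUnion_le_card_mul _ _ _ fun c _ => Finset.card_image_le
    have h3 := card_m n (2 ^ (c₀ + 2 * k + d)) (by positivity)
    have h4 : ((Lk k).card : ℝ) ≤ 2 ^ k := by exact_mod_cast card_Lk k
    calc (((Lk k).biUnion fun c =>
      ((Finset.range n).filter (fun m => (m + 1) * 2 ^ (c₀ + 2 * k + d) ≤ n)).image
        (fun m => gam c₀ (c, d) m)).card : ℝ) ≤
        ((Lk k).card * ((Finset.range n).filter
          (fun m => (m + 1) * 2 ^ (c₀ + 2 * k + d) ≤ n)).card : ℕ) := by exact_mod_cast h2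
      _ = ((Lk k).card : ℝ) * (((Finset.range n).filter
          (fun m => (m + 1) * 2 ^ (c₀ + 2 * k + d) ≤ n)).card : ℝ) := by push_cast; ring
      _ ≤ 2 ^ k * ((n : ℝ) / ((2 ^ (c₀ + 2 * k + d) : ℕ) : ℝ)) :=
          mul_le_mul h4 h3 (Nat.cast_nonneg _) (by positivity)
      _ = ((n : ℝ) / 2 ^ c₀) * ((1 / 2) ^ k * (1 / 2) ^ d) := by
          push_cast
          rw [pow_add, pow_add, two_mul, pow_add, one_div, inv_pow, inv_pow]
          field_simp
  calc ((PS c₀ n).card : ℝ) ≤ ∑ k ∈ Finset.range n, ∑ d ∈ Finset.range n,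
        ((n : ℝ) / 2 ^ c₀) * ((1 / 2) ^ k * (1 / 2) ^ d) := by
        unfold PS
        have h5 := Finset.card_biUnion_le (s := Finset.range n) (t := fun k =>
          (Finset.range n).biUnion fun d => (Lk k).biUnion fun c =>
          ((Finset.range n).filter (fun m => (m + 1) * 2 ^ (c₀ + 2 * k + d) ≤ n)).image
          (fun m => gam c₀ (c, d) m))
        refine (Nat.cast_le.2 h5).trans ?_
        rw [Nat.cast_sum]
        refine Finset.sum_le_sum fun k _ => ?_
        have h6 := Finset.card_biUnion_le (s := Finset.range n) (t := fun d =>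
          (Lk k).biUnion fun c =>
          ((Finset.range n).filter (fun m => (m + 1) * 2 ^ (c₀ + 2 * k + d) ≤ n)).image
          (fun m => gam c₀ (c, d) m))
        refine (Nat.cast_le.2 h6).trans ?_
        rw [Nat.cast_sum]
        exact Finset.sum_le_sum fun d _ => h1 k d
    _ = ((n : ℝ) / 2 ^ c₀) * ((∑ k ∈ Finset.range n, (1 / 2 : ℝ) ^ k) *
          (∑ d ∈ Finset.range n, (1 / 2 : ℝ) ^ d)) := by
        rw [Finset.sum_mul_sum, Finset.mul_sum]
        refine Finset.sum_congr rfl fun k _ => ?_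
        rw [Finset.mul_sum]
    _ ≤ ((n : ℝ) / 2 ^ c₀) * (2 * 2) := by
        refine mul_le_mul_of_nonneg_left ?_ (by positivity)
        exact mul_le_mul (geom_le n) (geom_le n) (Finset.sum_nonneg fun _ _ => by positivity)
          (by norm_num)
    _ = 4 / 2 ^ c₀ * n := by ring

theorem p_cnt0 : P_cnt0 := by
  classical
  intro c₀ t ht
  set n := Nat.log 2 (Nat.log 2 t) with hn
  have hsub : {y : List Bool | (∃ i m, y = gam c₀ i m) ∧ y.length ≤ t} ⊆ (PS c₀ n : Set (List Bool)) := by
    rintro y ⟨⟨⟨c, d⟩, m, rfl⟩, hy⟩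
    have h1 : lev c₀ (c, d) (m + 1) ≤ t := by
      refine le_trans ?_ hy
      unfold gam
      simp only [List.length_append, List.length_replicate, List.length_cons]
      omega
    have h2 : 2 ^ ((m + 1) * 2 ^ (c₀ + 2 * c.length + d)) ≤ Nat.log 2 t :=
      Nat.le_log_of_pow_le (by norm_num) h1
    have h3 : (m + 1) * 2 ^ (c₀ + 2 * c.length + d) ≤ n :=
      Nat.le_log_of_pow_le (by norm_num) h2
    have h4 : c₀ + 2 * c.length + d < 2 ^ (c₀ + 2 * c.length + d) := Nat.lt_two_pow_self
    have h5 : 2 ^ (c₀ + 2 * c.length + d) ≤ (m + 1) * 2 ^ (c₀ + 2 * c.length + d) :=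
      Nat.le_mul_of_pos_left _ (by omega)
    have h6 : m + 1 ≤ (m + 1) * 2 ^ (c₀ + 2 * c.length + d) :=
      Nat.le_mul_of_pos_right _ (by positivity)
    unfold PS
    simp only [Finset.coe_biUnion, Set.mem_iUnion, Finset.mem_coe, Finset.mem_range,
      Finset.mem_image, Finset.mem_filter]
    exact ⟨c.length, by omega, d, by omega, c, mem_Lk c, m, ⟨by omega, h3⟩, rfl⟩
  refine ⟨(Finset.finite_toSet _).subset hsub, ?_⟩
  have h1 : ({y : List Bool | (∃ i m, y = gam c₀ i m) ∧ y.length ≤ t}.ncard : ℝ) ≤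
      ((PS c₀ n).card : ℝ) := by
    have h2 := Set.ncard_le_ncard hsub (Finset.finite_toSet _)
    rw [Set.ncard_coe_finset] at h2
    exact_mod_cast h2
  refine h1.trans ((card_PS c₀ n).trans ?_)
  refine mul_le_mul_of_nonneg_left ?_ (by positivity)
  have hl2 : 2 ≤ Nat.log 2 t := Nat.le_log_of_pow_le (by norm_num) ht
  have h3 : ((Nat.log 2 t : ℕ) : ℝ) ≤ Real.logb 2 t := by
    have h4 := Real.natLog_le_logb t 2
    exact_mod_cast h4
  have h5 : (n : ℝ) ≤ Real.logb 2 (Nat.log 2 t : ℕ) := by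
    have h4 := Real.natLog_le_logb (Nat.log 2 t) 2
    exact_mod_cast h4
  refine h5.trans ?_
  refine Real.logb_le_logb_of_le (by norm_num) ?_ h3
  have : (2 : ℝ) ≤ (Nat.log 2 t : ℕ) := by exact_mod_cast hl2
  linarith

end Pool.Agent.W2helper69.PB
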