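import Pool.Agent.W2helper26.PB.Stm

/-!
# Project PB (helper26): growth of the levels (piece LEVB)
-/

set_option autoImplicit false

namespace Pool.Agent.W2helper69.PB

open Pool.Agent.NPC Pool.Agent.H620R2.Gauge Filter MeasureTheory
open Pool.Agent.W2helper26.PB

theorem eval_le_pow (P : Polynomial ℕ) : ∃ k : ℕ, ∀ x : ℕ, 2 ≤ x → P.eval x ≤ x ^ k := by
  induction P using Polynomial.induction_on' with
  | add p q hp hq =>
    obtain ⟨a, ha⟩ := hp
    obtain ⟨b, hb⟩ := hq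
    refine ⟨max a b + 1, fun x hx => ?_⟩
    rw [Polynomial.eval_add]
    have h1 : x ^ a ≤ x ^ (max a b) := Nat.pow_le_pow_right (by omega) (le_max_left _ _)
    have h2 : x ^ b ≤ x ^ (max a b) := Nat.pow_le_pow_right (by omega) (le_max_right _ _)
    have h3 := ha x hx
    have h4 := hb x hx
    rw [pow_succ]
    nlinarith
  | monomial n c =>
    refine ⟨n + c, fun x hx => ?_⟩
    rw [Polynomial.eval_monomial, pow_add, mul_comm]
    have h1 : c ≤ x ^ c := Nat.lt_two_pow_self.le.trans (Nat.pow_le_pow_left hx c)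
    exact Nat.mul_le_mul_left _ h1

theorem two_le_lev (c₀ : ℕ) (i : Ix) (m : ℕ) : 2 ≤ lev c₀ i m := by
  unfold lev
  calc 2 = 2 ^ 1 := by norm_num
    _ ≤ _ := Nat.pow_le_pow_right (by norm_num) Nat.one_le_two_pow

theorem p_levb : P_levb := by
  intro P
  obtain ⟨k, hk⟩ := eval_le_pow P
  refine ⟨k, fun c₀ c d m hd => ?_⟩
  refine (hk _ (two_le_lev c₀ (c, d) m)).trans ?_
  have h1 : lev c₀ (c, d) (m + 1) = (lev c₀ (c, d) m) ^ (2 ^ 2 ^ (c₀ + 2 * c.length + d)) := by
    unfold lev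
    simp only
    rw [← pow_mul, ← pow_add]
    congr 2
    ring
  rw [h1]
  refine Nat.pow_le_pow_right (by have := two_le_lev c₀ (c, d) m; omega) ?_
  calc k ≤ d := hd
    _ ≤ c₀ + 2 * c.length + d := by omega
    _ ≤ 2 ^ (c₀ + 2 * c.length + d) := Nat.lt_two_pow_self.le
    _ ≤ 2 ^ 2 ^ (c₀ + 2 * c.length + d) := Nat.lt_two_pow_self.le

end Pool.Agent.W2helper69.PB
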